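import Pool.Agent.H18.Tau4

set_option autoImplicit false

namespace Pool.Agent.Results.MP_f722f0_gt.CH

open Pool.Agent.H18.Tau

/-- open cover not containing the whole space -/
def IsCover {Z : Type} [TopologicalSpace Z] (𝒰 : Set (Set Z)) : Prop :=
  (∀ u ∈ 𝒰, IsOpen u) ∧ ⋃₀ 𝒰 = Set.univ ∧ Set.univ ∉ 𝒰

/-- `τ`-cover -/
def IsTau {Z : Type} [TopologicalSpace Z] (𝒰 : Set (Set Z)) : Prop :=
  IsCover 𝒰 ∧ (∀ x : Z, {u ∈ 𝒰 | x ∈ u}.Infinite) ∧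
    ∀ x y : Z, {u ∈ 𝒰 | x ∈ u ∧ y ∉ u}.Finite ∨ {u ∈ 𝒰 | y ∈ u ∧ x ∉ u}.Finite

/-- `γ`-cover -/
def IsGamma {Z : Type} [TopologicalSpace Z] (𝒰 : Set (Set Z)) : Prop :=
  IsCover 𝒰 ∧ 𝒰.Infinite ∧ ∀ x : Z, {u ∈ 𝒰 | x ∉ u}.Finite

/-- `Split(T, T)` -/
def SplitTT (Z : Type) [TopologicalSpace Z] : Prop :=
  ∀ 𝒰 : Set (Set Z), IsTau 𝒰 → ∃ 𝒱 𝒲 : Set (Set Z), Disjoint 𝒱 𝒲 ∧ 𝒱 ∪ 𝒲 = 𝒰 ∧
    (∃ 𝒱' ⊆ 𝒱, IsTau 𝒱') ∧ ∃ 𝒲' ⊆ 𝒲, IsTau 𝒲'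

/-- `T choose Γ` -/
def TauGamma (Z : Type) [TopologicalSpace Z] : Prop :=
  ∀ 𝒰 : Set (Set Z), IsTau 𝒰 → ∃ 𝒱 ⊆ 𝒰, IsGamma 𝒱

/-- Under CH neither class is closed under finite products. -/
theorem result : Cardinal.continuum.{0} = Cardinal.aleph 1 →
    ∃ X : Set ℝ, SplitTT X ∧ TauGamma X ∧
      ¬ SplitTT (X ×ˢ X : Set (ℝ × ℝ)) ∧ ¬ TauGamma (X ×ˢ X : Set (ℝ × ℝ)) := by
  intro hCH
  have cov : ∀ {Z : Type} [TopologicalSpace Z] {𝒰 𝒱 : Set (Set Z)}, IsCover 𝒰 → 𝒱 ⊆ 𝒰 →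
      (∀ x : Z, {u ∈ 𝒱 | x ∈ u}.Infinite) → IsCover 𝒱 := by
    intro Z _ 𝒰 𝒱 h s t
    refine ⟨fun u hu => h.1 u (s hu), Set.eq_univ_of_forall fun x => ?_, fun a => h.2.2 (s a)⟩
    obtain ⟨u, hu⟩ := (t x).nonempty
    exact ⟨u, hu.1, hu.2⟩
  have imp : ∀ (Z : Type) [TopologicalSpace Z], TauGamma Z → SplitTT Z := by
    intro Z _ h 𝒰 hU
    obtain ⟨𝒢, g1, -, g3, g4⟩ := h 𝒰 hU
    obtain ⟨A, a1, B, b1, d, a2, b2⟩ := split_inf g3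
    have tau : ∀ C ⊆ 𝒢, C.Infinite → IsTau C := by
      intro C c1 c2
      have f : ∀ x, {u ∈ C | x ∉ u}.Finite := fun x => (g4 x).subset fun u hu => ⟨c1 hu.1, hu.2⟩
      exact ⟨cov hU.1 (c1.trans g1) fun x => gamma_large c2 (f x), fun x => gamma_large c2 (f x),
        fun x y => Or.inl ((f y).subset fun u hu => ⟨hu.1, hu.2.2⟩)⟩
    exact ⟨A, 𝒰 \ A, Set.disjoint_sdiff_right, Set.union_diff_cancel (a1.trans g1),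
      ⟨A, subset_rfl, tau A a1 a2⟩,
      B, fun u hu => ⟨g1 (b1 hu), fun t => Set.disjoint_left.mp d t hu⟩, tau B b1 b2⟩
  obtain ⟨X, -, x2, W, w1, w2, w3, w4⟩ := main hCH
  have tg : TauGamma X := by
    intro 𝒰 hU
    obtain ⟨𝒱, v1, v2, v3⟩ := x2 𝒰 hU.1.1 hU.2.1 hU.2.2
    exact ⟨𝒱, v1, cov hU.1 v1 fun x => gamma_large v2 (v3 x), v2, v3⟩
  have ns : ¬ SplitTT (X ×ˢ X : Set (ℝ × ℝ)) := by
    intro h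
    obtain ⟨n1, n2, n3, n4, n5⟩ := nosplit (Z := (X ×ˢ X : Set (ℝ × ℝ)))
      (V := fun n => Subtype.val ⁻¹' W n) (fun n => (w1 n).preimage continuous_subtype_val)
      (fun p => w2 p.1 p.2) (fun p q => w3 p.1 p.2 q.1 q.2) (fun A n => by
        obtain ⟨p, p1, p2⟩ := w4 A n
        exact ⟨⟨p, p1⟩, p2⟩)
    obtain ⟨𝒱, 𝒲, d, e, ⟨A, a1, a2⟩, B, b1, b2⟩ := h _ ⟨⟨n1, Set.eq_univ_of_forall fun x => by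
      obtain ⟨u, hu⟩ := (n3 x).nonempty
      exact ⟨u, hu.1, hu.2⟩, n2⟩, n3, n4⟩
    exact n5 A (a1.trans (e ▸ Set.subset_union_left)) B (b1.trans (e ▸ Set.subset_union_right))
      (d.mono a1 b1) a2.2.1 b2.2.1
  exact ⟨X, imp _ tg, tg, ns, fun t => ns (imp _ t)⟩

end Pool.Agent.Results.MP_f722f0_gt.CH
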